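import Mathlib
import Pool.Agent.Q310.FP.One

set_option autoImplicit false

/-!
# The SHGH conjecture: one multiplicity against the others

Every class in the Weyl group orbit of a standard class without `OneLarge` has `h⁰ = max (0, χ)` at
general points. For every class `D` and general points at least one of the following holds:
`h⁰ (D) = max (0, χ)`; some `(-1)`-curve `C` has `C D ≤ -2`; or `D`, after the removal of disjoint
`(-1)`-curves, each taken once, and finitely many quadratic transformations, is a standard class with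
the same `h⁰`, different from `max (0, χ)`, with `OneLarge`.

`OneLarge d w` means: for every point `a` and every upper bound `m` for the multiplicities at the
other points with `M + 2 m < d`, `M = w a`, and with `S` the sum of `(w i + 1).choose 2` over the other
points:
* `(d + 1) (d + 2) < 64 (m + 1) ^ 4 + M (M + 1)` and `S < 64 (m + 1) ^ 4`;
* if `|(d + 2).choose 2 - (M + 1).choose 2 - S| ≥ 2 (m + 1).choose 3` and `m ≥ 1`, then
  `(d + 1) (d + 2) < 27 (m + 4) ^ 3 + M (M + 1)` and `S < 27 (m + 4) ^ 3`.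
-/

namespace Pool.Agent.Results.MP_70e04f_ag.OneArbitraryForms

open MvPolynomial Pool.Agent.TH167.SHDefs Pool.Agent.Q310.FP

theorem result (n : ℕ) (hn : 4 ≤ n) (d : ℕ) (w : Fin n → ℕ) :
    (∀ (d' : ℕ) (w' : Fin n → ℕ), Carries d w d' w' → Standard d' w' → ¬ OneLarge d' w' →
      ∃ F : MvPolynomial (Fin n × Fin 2) ℂ, F ≠ 0 ∧ ∀ P : Fin n → Fin 2 → ℂ,
        eval (fun ij : Fin n × Fin 2 => P ij.1 ij.2) F ≠ 0 → hZero P d w = max 0 (chi d w)) ∧
    ∃ F : MvPolynomial (Fin n × Fin 2) ℂ, F ≠ 0 ∧
      ∀ P : Fin n → Fin 2 → ℂ, eval (fun ij : Fin n × Fin 2 => P ij.1 ij.2) F ≠ 0 →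
        hZero P d w = max 0 (chi d w) ∨
        (∃ (G : MvPolynomial (Fin 3) ℂ) (e : ℕ) (u : Fin n → ℕ), MinusOne P G e u ∧
          inter d w e u ≤ -2) ∨
        ∃ (d'' : ℕ) (w'' : Fin n → ℕ) (k : ℕ) (G : Fin k → MvPolynomial (Fin 3) ℂ)
          (e : Fin k → ℕ) (u : Fin k → Fin n → ℕ) (d' : ℕ) (w' : Fin n → ℕ),
          Decomp P d w d'' w'' G e u (fun _ => 1) ∧
          Relation.ReflTransGen Quadratic (d'', w'') (d', w') ∧ Standard d' w' ∧
          hZero P d' w' = hZero P d w ∧ hZero P d' w' ≠ max 0 (chi d' w') ∧ OneLarge d' w' :=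
  ⟨fun d' w' hc hs hR => (GE.orbit hn hc hs (((fun d w _ => one_or d w) d' w' hs).resolve_right hR)).hZero,
    shgh_rem hn (R := OneLarge) (fun d w _ => one_or d w) d w⟩

end Pool.Agent.Results.MP_70e04f_ag.OneArbitraryForms
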