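import Mathlib
import Pool.Agent.Q310.FP.Gap

set_option autoImplicit false

/-!
# The SHGH conjecture: the uniform gap above the Nagata bound

Every class in the Weyl group orbit of a standard class without `AboveGap` has `h⁰ = max (0, χ)` at
general points. For every class `D` and general points at least one of the following holds:
`h⁰ (D) = max (0, χ)`; some `(-1)`-curve `C` has `C D ≤ -2`; or `D`, after the removal of disjoint
`(-1)`-curves, each taken once, and finitely many quadratic transformations, is a standard class with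
the same `h⁰`, different from `max (0, χ)`, with `AboveGap`.

`AboveGap d w` means, if `d > 0`, for every set `T` of at least ten points: if `T` has at least twelve
points or `3` does not divide `d`, then `∑_T w i + 1 - 3 / √|T| ≤ √|T| d`; and if the multiplicities on
`T` are `k` or `k + 1`, `k ≥ 1`, then `∑_T (w i) ^ 2 < d ^ 2`, except that equality is allowed if
`|T| = 10`, `k = 1` and `d` is `4` or `5`.
-/

namespace Pool.Agent.Results.MP_70e04f_ag.UniformGapForms

open MvPolynomial Pool.Agent.TH167.SHDefs Pool.Agent.Q310.FP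

theorem result (n : ℕ) (hn : 4 ≤ n) (d : ℕ) (w : Fin n → ℕ) :
    (∀ (d' : ℕ) (w' : Fin n → ℕ), Carries d w d' w' → Standard d' w' → ¬ AboveGap d' w' →
      ∃ F : MvPolynomial (Fin n × Fin 2) ℂ, F ≠ 0 ∧ ∀ P : Fin n → Fin 2 → ℂ,
        eval (fun ij : Fin n × Fin 2 => P ij.1 ij.2) F ≠ 0 → hZero P d w = max 0 (chi d w)) ∧
    ∃ F : MvPolynomial (Fin n × Fin 2) ℂ, F ≠ 0 ∧
      ∀ P : Fin n → Fin 2 → ℂ, eval (fun ij : Fin n × Fin 2 => P ij.1 ij.2) F ≠ 0 →
        hZero P d w = max 0 (chi d w) ∨
        (∃ (G : MvPolynomial (Fin 3) ℂ) (e : ℕ) (u : Fin n → ℕ), MinusOne P G e u ∧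
          inter d w e u ≤ -2) ∨
        ∃ (d'' : ℕ) (w'' : Fin n → ℕ) (k : ℕ) (G : Fin k → MvPolynomial (Fin 3) ℂ)
          (e : Fin k → ℕ) (u : Fin k → Fin n → ℕ) (d' : ℕ) (w' : Fin n → ℕ),
          Decomp P d w d'' w'' G e u (fun _ => 1) ∧
          Relation.ReflTransGen Quadratic (d'', w'') (d', w') ∧ Standard d' w' ∧
          hZero P d' w' = hZero P d w ∧ hZero P d' w' ≠ max 0 (chi d' w') ∧ AboveGap d' w' :=
  ⟨fun d' w' hc hs hR => (GE.orbit hn hc hs (((fun d w _ => gap_or d w) d' w' hs).resolve_right hR)).hZero,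
    shgh_rem hn (R := AboveGap) (fun d w _ => gap_or d w) d w⟩

end Pool.Agent.Results.MP_70e04f_ag.UniformGapForms
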